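import Mathlib

/-!
# Every integer `n ≥ 2` is the covering number of a semigroup (MP_2bfc8a_al, Q1)

Letters carry a rank, a colour and a code.  For letters `x`, `y` of the same rank with
`col x < col y` the defining relation is `x y y = u`, where `u` is a word in letters of
smaller rank.  The colour classes are subsemigroups, and a diagonal choice of letters
shows that fewer than `n` proper subsemigroups never suffice.
-/

namespace Pool.Agent.Results.MP_2bfc8a_al.EveryNumberOccurs

open Classical

/-- `S` is the union of `k` proper subsemigroups, that is of `k` nonempty subsets closed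
under multiplication and different from `S` (repetitions allowed). -/
def IsUnion (S : Type) [Semigroup S] (k : ℕ) : Prop :=
  ∃ U : Fin k → Set S,
    (∀ i, (U i).Nonempty ∧ (∀ x ∈ U i, ∀ y ∈ U i, x * y ∈ U i) ∧ U i ≠ Set.univ) ∧
    ∀ x : S, ∃ i, x ∈ U i

/-- The abstract data: letters with rank and colour, a relation `Pr` and words `val`. -/
structure Sys where
  L : Type
  rk : L → ℕ
  col : L → ℕ
  Pr : L → L → Prop
  val : L → L → List L
  hrk : ∀ x y, Pr x y → rk x = rk y
  hcol : ∀ x y, Pr x y → col x < col y
  hne : ∀ x y, Pr x y → val x y ≠ []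
  hval : ∀ x y z, z ∈ val x y → rk z < rk x

namespace Sys

variable (D : Sys)

/-- One rewriting step `A x y y B → A (val x y) B`. -/
def Step (w w' : List D.L) : Prop :=
  ∃ A B x y, D.Pr x y ∧ w = A ++ [x, y, y] ++ B ∧ w' = A ++ D.val x y ++ B

/-- The congruence generated by the relations. -/
def E (w w' : List D.L) : Prop := Relation.EqvGen D.Step w w'

lemma E_refl (w : List D.L) : D.E w w := Relation.EqvGen.refl w
lemma E_symm {w w' : List D.L} (h : D.E w w') : D.E w' w := Relation.EqvGen.symm _ _ h
lemma E_trans {a b c : List D.L} (h : D.E a b) (h' : D.E b c) : D.E a c :=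
  Relation.EqvGen.trans _ _ _ h h'

lemma E_append_right {w w' : List D.L} (h : D.E w w') (C : List D.L) :
    D.E (w ++ C) (w' ++ C) := by
  induction h with
  | rel a b h =>
    obtain ⟨A, B, x, y, hp, rfl, rfl⟩ := h
    refine Relation.EqvGen.rel _ _ ⟨A, B ++ C, x, y, hp, ?_, ?_⟩ <;> simp
  | refl a => exact D.E_refl _
  | symm a b _ ih => exact D.E_symm ih
  | trans a b c _ _ ih1 ih2 => exact D.E_trans ih1 ih2

lemma E_append_left {w w' : List D.L} (h : D.E w w') (C : List D.L) :
    D.E (C ++ w) (C ++ w') := by
  induction h with
  | rel a b h =>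
    obtain ⟨A, B, x, y, hp, rfl, rfl⟩ := h
    refine Relation.EqvGen.rel _ _ ⟨C ++ A, B, x, y, hp, ?_, ?_⟩ <;> simp
  | refl a => exact D.E_refl _
  | symm a b _ ih => exact D.E_symm ih
  | trans a b c _ _ ih1 ih2 => exact D.E_trans ih1 ih2

lemma E_append {a b c d : List D.L} (h : D.E a b) (h' : D.E c d) :
    D.E (a ++ c) (b ++ d) :=
  D.E_trans (D.E_append_right h c) (D.E_append_left h' b)

/-- Nonempty words. -/
abbrev NE : Type := {w : List D.L // w ≠ []}

/-- The setoid of the congruence on nonempty words. -/
def std : Setoid D.NE where
  r a b := D.E a.1 b.1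
  iseqv := ⟨fun _ => D.E_refl _, fun h => D.E_symm h, fun h h' => D.E_trans h h'⟩

/-- The semigroup. -/
def S : Type := Quotient D.std

/-- The class of a nonempty word. -/
def cls (w : D.NE) : D.S := Quotient.mk D.std w

lemma cls_eq {w w' : D.NE} : D.cls w = D.cls w' ↔ D.E w.1 w'.1 := by
  unfold cls
  exact ⟨fun h => Quotient.exact h, fun h => Quotient.sound h⟩

/-- Product of nonempty words. -/
def app (a b : D.NE) : D.NE := ⟨a.1 ++ b.1, by simp [a.2]⟩

instance : Semigroup D.S where
  mul := Quotient.map₂ D.app (fun _ _ h _ _ h' => D.E_append h h')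
  mul_assoc := by
    intro a b c
    induction a using Quotient.inductionOn with | _ a => ?_
    induction b using Quotient.inductionOn with | _ b => ?_
    induction c using Quotient.inductionOn with | _ c => ?_
    apply Quotient.sound
    change D.E ((a.1 ++ b.1) ++ c.1) (a.1 ++ (b.1 ++ c.1))
    rw [List.append_assoc]
    exact D.E_refl _

lemma cls_mul (a b : D.NE) : D.cls a * D.cls b = D.cls (D.app a b) := rfl

lemma cls_surj (g : D.S) : ∃ w, D.cls w = g := by
  induction g using Quotient.inductionOn with | _ a => ?_
  exact ⟨a, rfl⟩

/-! ### The separating automaton -/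

/-- States: failure or a stack of pending items. -/
abbrev State : Type := Option (List (D.L × Option D.L))

/-- The action of a letter on a state. -/
noncomputable def act (z : D.L) : D.State → D.State
  | none => none
  | some [] => some [(z, none)]
  | some ((x, p) :: st) =>
    if D.rk x < D.rk z then some ((z, none) :: (x, p) :: st)
    else match p with
      | none => if D.Pr x z then some ((x, some z) :: st) else none
      | some y => if z = y ∧ D.Pr x y then
          (D.val x y).attach.foldl (fun q z' => if _h : D.rk z'.1 < D.rk z then act z'.1 q else none)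
            (some st)
        else none
termination_by D.rk z

lemma act_none (z : D.L) : D.act z none = none := by rw [act]
lemma act_nil (z : D.L) : D.act z (some []) = some [(z, none)] := by rw [act]

lemma act_push {z x : D.L} {p : Option D.L} {st : List (D.L × Option D.L)}
    (h : D.rk x < D.rk z) :
    D.act z (some ((x, p) :: st)) = some ((z, none) :: (x, p) :: st) := by
  cases p <;> rw [act, if_pos h]

lemma act_first {z x : D.L} {st : List (D.L × Option D.L)} (h : D.Pr x z) :
    D.act z (some ((x, none) :: st)) = some ((x, some z) :: st) := by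
  have h1 : ¬ D.rk x < D.rk z := by rw [D.hrk x z h]; exact lt_irrefl _
  rw [act, if_neg h1]
  simp [h]

lemma act_first_fail {z x : D.L} {st : List (D.L × Option D.L)} (h1 : ¬ D.rk x < D.rk z)
    (h : ¬ D.Pr x z) : D.act z (some ((x, none) :: st)) = none := by
  rw [act, if_neg h1]
  simp [h]

/-- Running a word from a state. -/
noncomputable def run (q : D.State) (w : List D.L) : D.State := w.foldl (fun q z => D.act z q) q

lemma run_nil (q : D.State) : D.run q [] = q := rfl
lemma run_cons (q : D.State) (z : D.L) (w : List D.L) :
    D.run q (z :: w) = D.run (D.act z q) w := rfl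
lemma run_append (q : D.State) (v w : List D.L) :
    D.run q (v ++ w) = D.run (D.run q v) w := by
  unfold run; rw [List.foldl_append]

lemma run_none (w : List D.L) : D.run none w = none := by
  induction w with
  | nil => rfl
  | cons z w ih => rw [run_cons, act_none, ih]

lemma act_second {x y : D.L} {st : List (D.L × Option D.L)} (h : D.Pr x y) :
    D.act y (some ((x, some y) :: st)) = D.run (some st) (D.val x y) := by
  have h1 : ¬ D.rk x < D.rk y := by rw [D.hrk x y h]; exact lt_irrefl _
  rw [act, if_neg h1]
  simp only [h, and_self, if_true]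
  unfold run
  rw [← List.foldl_attach (l := D.val x y) (f := fun q z => D.act z q)]
  congr 1
  funext q z'
  have h2 : D.rk z'.1 < D.rk y := by
    have := D.hval x y z'.1 z'.2
    rw [D.hrk x y h] at this
    exact this
  rw [dif_pos h2]

lemma act_second_fail {z x y : D.L} {st : List (D.L × Option D.L)} (h1 : ¬ D.rk x < D.rk z)
    (h : ¬ (z = y ∧ D.Pr x y)) : D.act z (some ((x, some y) :: st)) = none := by
  rw [act, if_neg h1]
  simp only [h, if_false]

/-- The stack is sorted: ranks strictly decrease from the top. -/
def Srt (st : List (D.L × Option D.L)) : Prop :=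
  st.Pairwise (fun a b => D.rk b.1 < D.rk a.1)

/-- The invariant: sorted, and all ranks satisfy `B`. -/
def P (B : ℕ → Prop) (q : D.State) : Prop :=
  ∀ st, q = some st → D.Srt st ∧ ∀ e ∈ st, B (D.rk e.1)

lemma P_run {B : ℕ → Prop} (w : List D.L) (h : ∀ z ∈ w, ∀ q, D.P B q → D.P B (D.act z q))
    (q : D.State) (hq : D.P B q) : D.P B (D.run q w) := by
  induction w generalizing q with
  | nil => exact hq
  | cons z w ih =>
    rw [run_cons]
    exact ih (fun z' hz' => h z' (List.mem_cons_of_mem _ hz')) _ (h z List.mem_cons_self q hq)

lemma P_act {B : ℕ → Prop} (hB : ∀ a b, a ≤ b → B b → B a) :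
    ∀ (r : ℕ) (z : D.L), D.rk z = r → B r → ∀ q, D.P B q → D.P B (D.act z q) := by
  intro r
  induction r using Nat.strong_induction_on with
  | _ r ih =>
    intro z hz hBr q hq
    match q, hq with
    | none, _ =>
      rw [act_none]; intro st h; cases h
    | some [], _ =>
      rw [act_nil]
      intro st h
      cases h
      refine ⟨by simp [Srt], ?_⟩
      intro e he
      simp at he
      rw [he]; simpa [hz] using hBr
    | some ((x, p) :: st), hq =>
      obtain ⟨hs, hb⟩ := hq _ rfl
      by_cases h1 : D.rk x < D.rk z
      · rw [D.act_push h1]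
        intro st' h
        cases h
        refine ⟨?_, ?_⟩
        · unfold Srt at hs ⊢
          rw [List.pairwise_cons]
          refine ⟨?_, hs⟩
          intro e he
          rw [List.mem_cons] at he
          rcases he with he | he
          · rw [he]; exact h1
          · rw [List.pairwise_cons] at hs
            exact (hs.1 e he).trans h1
        · intro e he
          rw [List.mem_cons] at he
          rcases he with he | he
          · rw [he]; simpa [hz] using hBr
          · exact hb e he
      · match p, hs, hb with
        | none, hs, hb =>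
          by_cases h2 : D.Pr x z
          · rw [D.act_first h2]
            intro st' h
            cases h
            unfold Srt at hs ⊢
            rw [List.pairwise_cons] at hs ⊢
            refine ⟨⟨fun e he => hs.1 e he, hs.2⟩, ?_⟩
            intro e he
            rw [List.mem_cons] at he
            rcases he with he | he
            · rw [he]; exact hb (x, none) List.mem_cons_self
            · exact hb e (List.mem_cons_of_mem _ he)
          · rw [D.act_first_fail h1 h2]; intro st h; cases h
        | some y, hs, hb =>
          by_cases h2 : z = y ∧ D.Pr x y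
          · obtain ⟨rfl, h2⟩ := h2
            rw [D.act_second h2]
            apply D.P_run
            · intro z' hz' q hq
              have h3 : D.rk z' < r := by
                have := D.hval x z z' hz'
                rw [D.hrk x z h2, hz] at this
                exact this
              exact ih _ h3 z' rfl (hB _ _ h3.le hBr) q hq
            · intro st' h
              cases h
              unfold Srt at hs ⊢
              rw [List.pairwise_cons] at hs
              exact ⟨hs.2, fun e he => hb e (List.mem_cons_of_mem _ he)⟩
          · rw [D.act_second_fail h1 h2]; intro st h; cases h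

lemma P_run_all {B : ℕ → Prop} (hB : ∀ a b, a ≤ b → B b → B a) (w : List D.L)
    (h : ∀ z ∈ w, B (D.rk z)) (q : D.State) (hq : D.P B q) : D.P B (D.run q w) :=
  D.P_run w (fun z hz q hq => D.P_act hB _ z rfl (h z hz) q hq) q hq

/-- Both sides of a relation act in the same way on every sorted state. -/
lemma run_rel {x y : D.L} (h : D.Pr x y) (q : D.State) (hq : D.P (fun _ => True) q) :
    D.run q [x, y, y] = D.run q (D.val x y) := by
  have hxy : D.rk x = D.rk y := D.hrk x y h
  have hne : x ≠ y := by
    rintro rfl
    exact lt_irrefl _ (D.hcol _ _ h)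
  have hyy : ¬ D.Pr y y := fun h' => lt_irrefl _ (D.hcol _ _ h')
  have good : ∀ st, (∀ e ∈ st, D.rk e.1 < D.rk x) →
      D.run (some st) [x, y, y] = D.run (some st) (D.val x y) := by
    intro st hst
    have h1 : D.act x (some st) = some ((x, none) :: st) := by
      match st, hst with
      | [], _ => exact D.act_nil x
      | (x', p) :: st, hst => exact D.act_push (hst (x', p) List.mem_cons_self)
    rw [run_cons, run_cons, run_cons, run_nil, h1, D.act_first h, D.act_second h]
  match q, hq with
  | none, _ => rw [run_none, run_none]
  | some [], _ => exact good [] (by simp)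
  | some ((x', p) :: st), hq =>
    obtain ⟨hs, -⟩ := hq _ rfl
    by_cases h1 : D.rk x' < D.rk x
    · apply good
      intro e he
      rw [List.mem_cons] at he
      rcases he with he | he
      · rw [he]; exact h1
      · unfold Srt at hs
        rw [List.pairwise_cons] at hs
        exact (hs.1 e he).trans h1
    · -- both sides fail
      have hR : D.run (some ((x', p) :: st)) (D.val x y) = none := by
        match hv : D.val x y with
        | [] => exact absurd hv (D.hne x y h)
        | z0 :: rest =>
          have hz0 : D.rk z0 < D.rk x := D.hval x y z0 (by rw [hv]; exact List.mem_cons_self)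
          rw [run_cons]
          have : D.act z0 (some ((x', p) :: st)) = none := by
            match p with
            | none =>
              apply D.act_first_fail (by omega)
              intro h'
              have := D.hrk _ _ h'
              omega
            | some y' =>
              apply D.act_second_fail (by omega)
              rintro ⟨rfl, h'⟩
              have := D.hrk _ _ h'
              omega
          rw [this, run_none]
      rw [hR]
      rw [run_cons]
      match p, hs with
      | none, hs =>
        by_cases h2 : D.Pr x' x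
        · rw [D.act_first h2, run_cons]
          have h3 : D.rk x' = D.rk x := D.hrk _ _ h2
          rw [D.act_second_fail (by omega) (by rintro ⟨h', -⟩; exact hne h'.symm), run_none]
        · rw [D.act_first_fail h1 h2, run_none]
      | some y', hs =>
        by_cases h2 : x = y' ∧ D.Pr x' y'
        · obtain ⟨rfl, h2⟩ := h2
          rw [D.act_second h2]
          have h3 : D.rk x' = D.rk x := D.hrk _ _ h2
          have hP : D.P (fun a => a < D.rk x) (D.run (some st) (D.val x' x)) := by
            apply D.P_run_all (fun a b hab hb => lt_of_le_of_lt hab hb)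
            · intro z hz
              have := D.hval x' x z hz
              rw [h3] at this
              exact this
            · intro st' h'
              cases h'
              unfold Srt at hs ⊢
              rw [List.pairwise_cons] at hs
              refine ⟨hs.2, fun e he => ?_⟩
              have := hs.1 e he
              simp only at this
              omega
          rw [run_cons, run_cons, run_nil]
          match hq' : D.run (some st) (D.val x' x), hP with
          | none, _ => rw [act_none, act_none]
          | some [], _ =>
            rw [act_nil, D.act_first_fail (lt_irrefl _) hyy]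
          | some ((x'', p'') :: st''), hP =>
            have h5 := (hP _ rfl).2 (x'', p'') List.mem_cons_self
            simp only at h5
            rw [D.act_push (by omega), D.act_first_fail (lt_irrefl _) hyy]
        · rw [D.act_second_fail h1 h2, run_none]

lemma run_step {w w' : List D.L} (h : D.Step w w') : D.run (some []) w = D.run (some []) w' := by
  obtain ⟨A, B, x, y, hp, rfl, rfl⟩ := h
  rw [run_append, run_append, run_append, run_append]
  congr 1
  apply D.run_rel hp
  apply D.P_run_all (fun _ _ _ _ => trivial) A (fun _ _ => trivial)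
  intro st h
  cases h
  exact ⟨by simp [Srt], by simp⟩

lemma run_E {w w' : List D.L} (h : D.E w w') : D.run (some []) w = D.run (some []) w' := by
  induction h with
  | rel a b h => exact D.run_step h
  | refl a => rfl
  | symm _ _ _ ih => exact ih.symm
  | trans a b c _ _ ih1 ih2 => exact ih1.trans ih2

/-! ### The colour classes -/

/-- Good words with leading letter `x`. -/
def Good (x : D.L) (w : List D.L) : Prop :=
  ∃ w0 w1, w = w0 ++ x :: w1 ∧ (∀ z ∈ w0, D.rk z < D.rk x) ∧ (∀ z ∈ w1, D.rk z ≤ D.rk x) ∧
    ∀ z w3, w1 = z :: z :: w3 → ¬ D.Pr x z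

lemma run_good {x : D.L} {w : List D.L} (h : D.Good x w) :
    D.run (some []) w = none ∨ ∃ p st, D.run (some []) w = some ((x, p) :: st) := by
  obtain ⟨w0, w1, rfl, h0, h1, h2⟩ := h
  have hP : D.P (fun a => a < D.rk x) (D.run (some []) w0) := by
    apply D.P_run_all (fun a b hab hb => lt_of_le_of_lt hab hb) w0 h0
    intro st h
    cases h
    exact ⟨by simp [Srt], by simp⟩
  rw [run_append, run_cons]
  match hq : D.run (some []) w0, hP with
  | none, _ => left; rw [act_none, run_none]
  | some st, hP =>
    have hb := (hP _ rfl).2
    have h3 : D.act x (some st) = some ((x, none) :: st) := by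
      match st, hb with
      | [], _ => exact D.act_nil x
      | (x', p) :: st, hb => exact D.act_push (hb (x', p) List.mem_cons_self)
    rw [h3]
    match w1, h1, h2 with
    | [], _, _ => right; exact ⟨none, st, rfl⟩
    | z :: w2, h1, h2 =>
      rw [run_cons]
      have hz : D.rk z ≤ D.rk x := h1 z List.mem_cons_self
      by_cases h4 : D.Pr x z
      · rw [D.act_first h4]
        match w2, h1, h2 with
        | [], _, _ => right; exact ⟨some z, st, rfl⟩
        | z' :: w3, h1, h2 =>
          left
          have hz' : D.rk z' ≤ D.rk x := h1 z' (by simp)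
          rw [run_cons, D.act_second_fail (by omega) ?_, run_none]
          rintro ⟨rfl, h5⟩
          exact h2 z' w3 rfl h5
      · left
        rw [D.act_first_fail (by omega) h4, run_none]

/-- The colour class `c`. -/
def T (c : ℕ) : Set D.S := {g | ∃ (w : D.NE) (x : D.L), D.cls w = g ∧ D.Good x w.1 ∧ D.col x = c}

lemma T_closed (c : ℕ) : ∀ g ∈ D.T c, ∀ h ∈ D.T c, g * h ∈ D.T c := by
  rintro g ⟨w, x, rfl, ⟨w0, w1, hw, h0, h1, h2⟩, hc⟩ h ⟨w', x', rfl, ⟨w0', w1', hw', h0', h1', h2'⟩, hc'⟩
  rw [D.cls_mul]
  by_cases hr : D.rk x < D.rk x'
  · refine ⟨D.app w w', x', rfl, ⟨w0 ++ x :: w1 ++ w0', w1', ?_, ?_, h1', h2'⟩, hc'⟩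
    · change w.1 ++ w'.1 = _
      rw [hw, hw']; simp
    · intro z hz
      simp only [List.mem_append, List.mem_cons] at hz
      rcases hz with (hz | rfl | hz) | hz
      · exact (h0 z hz).trans hr
      · exact hr
      · exact lt_of_le_of_lt (h1 z hz) hr
      · exact h0' z hz
  · refine ⟨D.app w w', x, rfl, ⟨w0, w1 ++ (w0' ++ x' :: w1'), ?_, h0, ?_, ?_⟩, hc⟩
    · change w.1 ++ w'.1 = _
      rw [hw, hw']; simp
    · intro z hz
      simp only [List.mem_append, List.mem_cons] at hz
      rcases hz with hz | hz | rfl | hz
      · exact h1 z hz
      · have := h0' z hz; omega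
      · omega
      · have := h1' z hz; omega
    · intro z w3 he hp
      -- the first letter of w0' ++ x' :: w1' is not z
      have key : ∀ w4, w0' ++ x' :: w1' ≠ z :: w4 := by
        intro w4 h5
        match w0', h0', h5 with
        | [], _, h5 =>
          rw [List.nil_append, List.cons_eq_cons] at h5
          obtain ⟨rfl, -⟩ := h5
          have := D.hcol _ _ hp
          omega
        | a :: w0', h0', h5 =>
          rw [List.cons_append, List.cons_eq_cons] at h5
          obtain ⟨rfl, -⟩ := h5
          have := h0' a List.mem_cons_self
          have := D.hrk _ _ hp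
          omega
      match w1, h2, he with
      | [], _, he => exact key _ he
      | [a], _, he =>
        rw [List.cons_append, List.nil_append, List.cons_eq_cons] at he
        exact key _ he.2
      | a :: b :: w5, h2, he =>
        rw [List.cons_append, List.cons_append, List.cons_eq_cons, List.cons_eq_cons] at he
        obtain ⟨rfl, rfl, -⟩ := he
        exact h2 b w5 rfl hp

lemma exists_good_aux (r : ℕ) : ∀ w : List D.L, w ≠ [] → (∀ z ∈ w, D.rk z < r) →
    ∃ w' x, D.E w w' ∧ w' ≠ [] ∧ D.Good x w' := by
  induction r with
  | zero =>
    intro w hw h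
    match w, hw, h with
    | a :: w, _, h => exact absurd (h a List.mem_cons_self) (by omega)
  | succ r ih =>
    have inner : ∀ k (w : List D.L), w.countP (fun z => decide (D.rk z = r)) = k → w ≠ [] →
        (∀ z ∈ w, D.rk z < r + 1) → ∃ w' x, D.E w w' ∧ w' ≠ [] ∧ D.Good x w' := by
      intro k
      induction k using Nat.strong_induction_on with
      | _ k ihk =>
        intro w hk hw h
        by_cases hr : ∃ z ∈ w, D.rk z = r
        · -- split at the first letter of rank r
          obtain ⟨w0, x, w1, hw', hx, h0⟩ : ∃ w0 x w1, w = w0 ++ x :: w1 ∧ D.rk x = r ∧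
              ∀ z ∈ w0, D.rk z ≠ r := by
            clear hk hw h ihk
            induction w with
            | nil => obtain ⟨z, hz, -⟩ := hr; cases hz
            | cons a w ihw =>
              by_cases ha : D.rk a = r
              · exact ⟨[], a, w, rfl, ha, by simp⟩
              · obtain ⟨z, hz, hz'⟩ := hr
                have hz2 : z ∈ w := by
                  rw [List.mem_cons] at hz
                  rcases hz with rfl | hz
                  · exact absurd hz' ha
                  · exact hz
                obtain ⟨w0, x, w1, h1, h2, h3⟩ := ihw ⟨z, hz2, hz'⟩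
                refine ⟨a :: w0, x, w1, by rw [h1]; rfl, h2, ?_⟩
                intro z hz
                rw [List.mem_cons] at hz
                rcases hz with rfl | hz
                · exact ha
                · exact h3 z hz
          have h0' : ∀ z ∈ w0, D.rk z < D.rk x := by
            intro z hz
            have h3 := h z (by rw [hw']; simp [hz])
            have h4 := h0 z hz
            omega
          have h1' : ∀ z ∈ w1, D.rk z ≤ D.rk x := by
            intro z hz
            have h3 := h z (by rw [hw']; simp [hz])
            omega
          by_cases hg : ∃ z w3, w1 = z :: z :: w3 ∧ D.Pr x z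
          · obtain ⟨z, w3, rfl, hp⟩ := hg
            have hE : D.E w (w0 ++ D.val x z ++ w3) := by
              apply Relation.EqvGen.rel
              refine ⟨w0, w3, x, z, hp, ?_, rfl⟩
              rw [hw']; simp
            have hval : ∀ u ∈ D.val x z, D.rk u < r := by
              intro u hu
              have := D.hval x z u hu
              omega
            have hzr : D.rk z = r := by rw [← D.hrk x z hp]; exact hx
            obtain ⟨w', x', hE', hne, hgood⟩ := ihk
              ((w0 ++ D.val x z ++ w3).countP (fun z => decide (D.rk z = r))) (by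
                rw [← hk, hw']
                simp only [List.countP_append, List.countP_cons, hx, hzr]
                have : (D.val x z).countP (fun z => decide (D.rk z = r)) = 0 := by
                  rw [List.countP_eq_zero]
                  intro u hu
                  have := hval u hu
                  simp; omega
                rw [this]
                simp
                omega) (w0 ++ D.val x z ++ w3) rfl (by
                  have := D.hne x z hp
                  simp [this]) (by
                  intro u hu
                  simp only [List.mem_append] at hu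
                  rcases hu with (hu | hu) | hu
                  · exact h u (by rw [hw']; simp [hu])
                  · have := hval u hu; omega
                  · exact h u (by rw [hw']; simp [hu]))
            exact ⟨w', x', D.E_trans hE hE', hne, hgood⟩
          · refine ⟨w, x, D.E_refl _, hw, w0, w1, hw', h0', h1', ?_⟩
            intro z w3 h5 h6
            exact hg ⟨z, w3, h5, h6⟩
        · refine ih w hw ?_
          intro z hz
          have h1 := h z hz
          have h2 : D.rk z ≠ r := fun h' => hr ⟨z, hz, h'⟩
          omega
    intro w hw h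
    exact inner _ w rfl hw h

lemma T_cover (g : D.S) : ∃ x, g ∈ D.T (D.col x) := by
  obtain ⟨w, rfl⟩ := D.cls_surj g
  have key : ∀ w : List D.L, ∃ r, ∀ z ∈ w, D.rk z < r := by
    intro w
    induction w with
    | nil => exact ⟨0, by simp⟩
    | cons a w ih =>
      obtain ⟨r, hr⟩ := ih
      refine ⟨r + D.rk a + 1, ?_⟩
      intro z hz
      rw [List.mem_cons] at hz
      rcases hz with rfl | hz
      · omega
      · have := hr z hz; omega
  obtain ⟨r, hr⟩ := key w.1
  obtain ⟨w', x, hE, hne, hg⟩ := D.exists_good_aux r w.1 w.2 hr
  exact ⟨x, ⟨w', hne⟩, x, D.cls_eq.2 (D.E_symm hE), hg, rfl⟩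

lemma letter_good (x : D.L) : D.Good x [x] :=
  ⟨[], [], rfl, by simp, by simp, by simp⟩

lemma letter_mem (x : D.L) : D.cls ⟨[x], by simp⟩ ∈ D.T (D.col x) :=
  ⟨⟨[x], by simp⟩, x, rfl, D.letter_good x, rfl⟩

lemma letter_not_mem (x : D.L) (c : ℕ) (h : D.col x ≠ c) : D.cls ⟨[x], by simp⟩ ∉ D.T c := by
  rintro ⟨w, y, hw, hg, hc⟩
  have h1 := D.run_E (D.cls_eq.1 hw)
  have h2 : D.run (some []) [x] = some [(x, none)] := by
    rw [run_cons, run_nil, act_nil]
  simp only [h2] at h1
  rcases D.run_good hg with h3 | ⟨p, st, h3⟩
  · rw [h3] at h1; cases h1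
  · rw [h3] at h1
    simp only [Option.some.injEq, List.cons.injEq, Prod.mk.injEq] at h1
    exact h (h1.1.1 ▸ hc)

end Sys

/-! ### The concrete letters -/

/-- Letters: rank, colour, code. -/
abbrev Ltr (n : ℕ) : Type := ℕ × Fin n × (Fin n → Fin n)

/-- The decoding of a rank into `n` words. -/
def dec (n : ℕ) (t : ℕ) : Fin n → List (Ltr n) :=
  (Encodable.decode (Nat.unpair t).1 : Option (Fin n → List (Ltr n))).getD (fun _ => [])

lemma dec_surj (n : ℕ) (τ : Fin n → List (Ltr n)) (N : ℕ) : ∃ t, N ≤ t ∧ dec n t = τ := by
  refine ⟨Nat.pair (Encodable.encode τ) N, Nat.right_le_pair _ _, ?_⟩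
  unfold dec
  rw [Nat.unpair_pair]
  simp

/-- The right-hand sides of the relations. -/
def rhs (n : ℕ) (t : ℕ) (i : Fin n) : List (Ltr n) :=
  (dec n t i).filter (fun z => decide (z.1 < t))

/-- The concrete system. -/
def sys (n : ℕ) : Sys where
  L := Ltr n
  rk z := z.1
  col z := z.2.1.val
  Pr x y := x.1 = y.1 ∧ x.2.1 < y.2.1 ∧ rhs n x.1 (y.2.2 x.2.1) ≠ []
  val x y := rhs n x.1 (y.2.2 x.2.1)
  hrk := fun _ _ h => h.1
  hcol := fun _ _ h => h.2.1
  hne := fun _ _ h => h.2.2
  hval := by
    intro x y z hz
    unfold rhs at hz
    rw [List.mem_filter] at hz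
    simpa using hz.2

/-- The diagonal choice of codes. -/
lemma diag (n : ℕ) (F : Fin n → (Fin n → Fin n) → Fin n) :
    ∃ b : Fin n → Fin n, ∀ k, b k = F k (fun j => if j < k then b j else k) := by
  refine ⟨WellFounded.fix (wellFounded_lt (α := Fin n))
    (fun k rec => F k (fun j => if h : j < k then rec j h else k)), ?_⟩
  intro k
  rw [WellFounded.fix_eq]
  congr 1

/-- Fewer than `n` proper subsemigroups never cover. -/
lemma lower (n k : ℕ) (h : IsUnion (sys n).S k) : n ≤ k := by
  by_contra hk
  push Not at hk
  obtain ⟨U, hU, hcov⟩ := h
  -- words not in `U i`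
  have hmiss : ∀ i : Fin k, ∃ w : (sys n).NE, (sys n).cls w ∉ U i := by
    intro i
    have h1 := (hU i).2.2
    rw [Ne, Set.eq_univ_iff_forall] at h1
    push Not at h1
    obtain ⟨g, hg⟩ := h1
    obtain ⟨w, rfl⟩ := (sys n).cls_surj g
    exact ⟨w, hg⟩
  choose w hw using hmiss
  let τ : Fin n → List (Ltr n) := fun i => if h : i.val < k then (w ⟨i.val, h⟩).1 else []
  -- a bound for the ranks
  obtain ⟨N, hN⟩ : ∃ N, ∀ i, ∀ z ∈ τ i, z.1 < N := by
    have h1 : ∀ l : List (Ltr n), ∃ r, ∀ z ∈ l, z.1 < r := by
      intro l
      induction l with
      | nil => exact ⟨0, by simp⟩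
      | cons a l ih =>
        obtain ⟨r, hr⟩ := ih
        refine ⟨r + a.1 + 1, ?_⟩
        intro z hz
        rw [List.mem_cons] at hz
        rcases hz with rfl | hz
        · omega
        · have := hr z hz; omega
    choose f hf using fun i => h1 (τ i)
    refine ⟨∑ i, f i, ?_⟩
    intro i z hz
    exact lt_of_lt_of_le (hf i z hz) (Finset.single_le_sum (f := f) (fun _ _ => Nat.zero_le _)
      (Finset.mem_univ i))
  obtain ⟨t, htN, ht⟩ := dec_surj n τ N
  have hrhs : ∀ i, rhs n t i = τ i := by
    intro i
    unfold rhs
    rw [ht, List.filter_eq_self]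
    intro z hz
    have := hN i z hz
    simp; omega
  -- classes of the letters
  choose f hf using hcov
  let lt : Fin n → (Fin n → Fin n) → (sys n).NE := fun c b =>
    ⟨[((t, c, b) : Ltr n)], by simp⟩
  let F : Fin n → (Fin n → Fin n) → Fin n := fun c b =>
    Fin.castLE hk.le (f ((sys n).cls (lt c b)))
  obtain ⟨b, hb⟩ := diag n F
  let v : Fin n → Fin k := fun c =>
    f ((sys n).cls (lt c (fun j => if j < c then b j else c)))
  have hbv : ∀ c, b c = Fin.castLE hk.le (v c) := hb
  obtain ⟨c1, c2, hne, hv⟩ := Fintype.exists_ne_map_eq_of_card_lt v (by simpa using hk)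
  have key : ∀ c1 c2 : Fin n, c1 < c2 → v c1 = v c2 → False := by
    intro c1 c2 hlt hv
    let x := lt c1 (fun j => if j < c1 then b j else c1)
    let y := lt c2 (fun j => if j < c2 then b j else c2)
    have hx : (sys n).cls x ∈ U (v c1) := hf _
    have hy : (sys n).cls y ∈ U (v c1) := by rw [hv]; exact hf _
    have hmul := (hU (v c1)).2.1
    have h1 := hmul _ (hmul _ hx _ hy) _ hy
    rw [Sys.cls_mul, Sys.cls_mul] at h1
    apply hw (v c1)
    have hτ : τ (b c1) = (w (v c1)).1 := by
      change (if h : (b c1).val < k then (w ⟨(b c1).val, h⟩).1 else []) = _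
      rw [hbv c1]
      exact dif_pos (show (Fin.castLE hk.le (v c1)).val < k from (v c1).2)
    have hval : rhs n t (b c1) = (w (v c1)).1 := by rw [hrhs, hτ]
    have hPr : (sys n).Pr ((t, c1, (fun j => if j < c1 then b j else c1)) : Ltr n)
        ((t, c2, (fun j => if j < c2 then b j else c2)) : Ltr n) := by
      refine ⟨rfl, hlt, ?_⟩
      change rhs n t (if c1 < c2 then b c1 else c2) ≠ []
      rw [if_pos hlt, hval]
      exact (w (v c1)).2
    have hv2 : (sys n).val ((t, c1, (fun j => if j < c1 then b j else c1)) : Ltr n)
        ((t, c2, (fun j => if j < c2 then b j else c2)) : Ltr n) = (w (v c1)).1 := by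
      change rhs n t (if c1 < c2 then b c1 else c2) = _
      rw [if_pos hlt]
      exact hval
    have hE : (sys n).E ((sys n).app ((sys n).app x y) y).1 (w (v c1)).1 := by
      apply Relation.EqvGen.rel
      refine ⟨[], [], _, _, hPr, rfl, ?_⟩
      rw [hv2]
      simp
    rw [← (sys n).cls_eq.2 hE]
    exact h1
  rcases lt_or_gt_of_ne hne with h1 | h1
  · exact key _ _ h1 hv
  · exact key _ _ h1 hv.symm

/-- For every integer `n ≥ 2` there is a countable semigroup whose covering number by proper
subsemigroups is exactly `n`. -/
theorem result : ∀ n : ℕ, 2 ≤ n → ∃ (S : Type) (_ : Semigroup S), Countable S ∧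
    IsLeast {k : ℕ | IsUnion S k} n := by
  intro n hn
  refine ⟨(sys n).S, inferInstance, ?_, ?_, ?_⟩
  · have h1 : Countable (sys n).NE := by
      have : Countable (List (sys n).L) := inferInstanceAs (Countable (List (Ltr n)))
      infer_instance
    have h2 : Function.Surjective (sys n).cls := (sys n).cls_surj
    exact h2.countable
  · refine ⟨fun i => (sys n).T i.val, ?_, ?_⟩
    · intro i
      have h0 : 0 < n := by omega
      let x : Ltr n := (0, i, fun _ => ⟨0, h0⟩)
      refine ⟨⟨_, (sys n).letter_mem x⟩, (sys n).T_closed _, ?_⟩
      obtain ⟨j, hj⟩ : ∃ j : Fin n, j ≠ i := by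
        have : Nontrivial (Fin n) := Fin.nontrivial_iff_two_le.2 hn
        exact exists_ne i
      let y : Ltr n := (0, j, fun _ => ⟨0, h0⟩)
      intro h
      have h' : (sys n).T i.val = Set.univ := h
      have h3 : (sys n).cls ⟨[y], by simp⟩ ∈ (sys n).T i.val := by rw [h']; trivial
      exact (sys n).letter_not_mem y i.val (fun h4 => hj (Fin.ext h4)) h3
    · intro g
      obtain ⟨x, hx⟩ := (sys n).T_cover g
      exact ⟨x.2.1, hx⟩
  · intro k hk
    exact lower n k hk

end Pool.Agent.Results.MP_2bfc8a_al.EveryNumberOccurs
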